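import Mathlib
import Pool.Agent.Helper69_LOTS.Defs
import Pool.Agent.Helper69_LOTS.Lower

/-!
In ZFC, every basis for the class `C` has at least six elements.
-/

open Cardinal

namespace Pool.Agent.Results.MP_6f3246_lc.AtLeastSix

open Pool.Agent.Helper69_LOTS

/-- Every basis for the class `C` (indexed by an arbitrary type) has at least six elements. -/
theorem result (ι : Type) (K : ι → Type) [∀ i, LinearOrder (K i)] (hK : IsBasisForC K) :
    (6 : Cardinal) ≤ #ι :=
  six_le_mk hK

end Pool.Agent.Results.MP_6f3246_lc.AtLeastSix
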