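import Mathlib
import Pool.Agent.Helper69_LOTS.Defs
import Pool.Agent.Helper69_LOTS.Main

/-!
If the uncountable linear orders have a five-element basis under order embeddability (Moore: this
follows from PFA), then the class `C` of `aleph_1`-dense LOTS all of whose points have countable
cofinality and coinitiality has a six-element basis under LOTS embeddability.
-/

namespace Pool.Agent.Results.MP_6f3246_lc.FiveGivesSix

open Pool.Agent.Helper69_LOTS

/-- If the class of all uncountable linear orders has a five-element basis under order
embeddability, then the class `C` has a six-element basis under LOTS embeddability. -/
theorem result :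
    (∃ (B : Fin 5 → Type) (_ : ∀ i, LinearOrder (B i)), IsBasisForUncountable B) →
      ∃ (K : Fin 6 → Type) (_ : ∀ i, LinearOrder (K i)), IsBasisForC K :=
  five_gives_six

end Pool.Agent.Results.MP_6f3246_lc.FiveGivesSix
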