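import Mathlib
import Pool.Agent.Helper69_LOTS.Defs
import Pool.Agent.Helper69_LOTS.Lower

/-!
In ZFC, the subclass of `C` formed by the orders in which every interval contains a copy of `ω₁`
or of its reverse has a two-element basis, and no smaller one.
-/

open Cardinal

namespace Pool.Agent.Results.MP_6f3246_lc.LongSubclassTwo

open Pool.Agent.Helper69_LOTS

/-- The subclass of `C` formed by the orders in which every nonempty open interval contains a copy
of `ω₁` or of its reverse has a two-element basis, and every basis of it has at least two
elements. -/
theorem result :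
    (∃ (K : Fin 2 → Type) (_ : ∀ i, LinearOrder (K i)), IsBasisForLongC K) ∧
      ∀ (ι : Type) (K : ι → Type) [∀ i, LinearOrder (K i)], IsBasisForLongC K →
        (2 : Cardinal) ≤ #ι :=
  ⟨exists_two_basis, fun _ _ _ hK => two_le_mk hK⟩

end Pool.Agent.Results.MP_6f3246_lc.LongSubclassTwo
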