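import Mathlib
import Pool.Agent.Helper58_MOO.Main
import Pool.Agent.Helper69_LOTS.Lower

/-!
Under the Proper Forcing Axiom the class `C` of `aleph_1`-dense linearly ordered topological
spaces in which every point has countable cofinality and countable coinitiality has a basis with
exactly six elements under LOTS embeddability, and no basis with fewer elements.
-/

open Cardinal

namespace Pool.Agent.Results.MP_6f3246_lc.PFASixElementBasis

open Pool.Agent.Helper69_LOTS

/-- `𝒞` is a closed unbounded family of countable subsets of `X`: its members are countable, each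
countable subset of `X` is contained in a member, and the union of an increasing sequence of
members is a member. -/
structure IsClubFamily {X : Type} (𝒞 : Set (Set X)) : Prop where
  countable : ∀ M ∈ 𝒞, M.Countable
  unbounded : ∀ A : Set X, A.Countable → ∃ M ∈ 𝒞, A ⊆ M
  closed : ∀ f : ℕ → Set X, Monotone f → (∀ n, f n ∈ 𝒞) → (⋃ n, f n) ∈ 𝒞

/-- `D` is a dense set of conditions of the forcing notion `P`. -/
def IsDenseSet {P : Type} [Preorder P] (D : Set P) : Prop := ∀ p, ∃ q ∈ D, q ≤ p

/-- For `M ⊆ P ∪ 𝒫(P)`: the condition `q` is `(M, P)`-generic, i.e. for every dense set `D` which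
belongs to `M` the set `D ∩ M` is predense below `q` (each `r ≤ q` is compatible with a member of
`D ∩ M`). -/
def IsGenericCondition {P : Type} [Preorder P] (M : Set (P ⊕ Set P)) (q : P) : Prop :=
  ∀ D : Set P, IsDenseSet D → Sum.inr D ∈ M →
    ∀ r ≤ q, ∃ d ∈ D, Sum.inl d ∈ M ∧ ∃ s : P, s ≤ d ∧ s ≤ r

/-- The forcing notion `P` is proper: for closed unboundedly many countable `M ⊆ P ∪ 𝒫(P)`, every
condition `p ∈ M` has an `(M, P)`-generic extension `q ≤ p`. -/
def IsProperForcing (P : Type) [Preorder P] : Prop :=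
  ∃ 𝒞 : Set (Set (P ⊕ Set P)), IsClubFamily 𝒞 ∧
    ∀ M ∈ 𝒞, ∀ p : P, Sum.inl p ∈ M → ∃ q ≤ p, IsGenericCondition M q

/-- `G` is a filter on the forcing notion `P`. -/
structure IsForcingFilter {P : Type} [Preorder P] (G : Set P) : Prop where
  nonempty : G.Nonempty
  upward : ∀ p ∈ G, ∀ q, p ≤ q → q ∈ G
  directed : ∀ p ∈ G, ∀ q ∈ G, ∃ r ∈ G, r ≤ p ∧ r ≤ q

/-- The Proper Forcing Axiom: for every proper forcing notion `P` and every family `𝒟` of at most
`aleph_1` dense subsets of `P` there is a filter on `P` meeting all members of `𝒟`. -/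
def ProperForcingAxiom : Prop :=
  ∀ (P : Type) [Preorder P] [Nonempty P], IsProperForcing P →
    ∀ 𝒟 : Set (Set P), #𝒟 ≤ ℵ₁ → (∀ D ∈ 𝒟, IsDenseSet D) →
      ∃ G : Set P, IsForcingFilter G ∧ ∀ D ∈ 𝒟, (G ∩ D).Nonempty

theorem isProperForcing_of_proper {P : Type} [Preorder P] (h : MOO.Proper P) :
    IsProperForcing P := by
  obtain ⟨F, hF⟩ := h
  refine ⟨{M | M.Countable ∧ MOO.Cl F M}, ⟨fun M hM => hM.1, fun A hA => ?_,
    fun f hf h => ⟨Set.countable_iUnion (fun n => (h n).1),
      MOO.Cl.iUnion hf (fun n => (h n).2)⟩⟩, fun M hM p hp => ?_⟩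
  · obtain ⟨M, h1, h2, h3⟩ := MOO.exists_cl F A hA
    exact ⟨M, ⟨h2, h3⟩, h1⟩
  · obtain ⟨q, hq, hq'⟩ := hF M hM.1 hM.2 p hp
    exact ⟨q, hq, fun D hD hDM r hr => hq' D hD hDM r hr⟩

theorem pfa_of_properForcingAxiom (h : ProperForcingAxiom) : MOO.PFA := by
  intro P _ _ hP D hD
  have hcard : #(Set.range D) ≤ ℵ₁ := by
    refine Cardinal.mk_range_le.trans ?_
    rw [mk_Om]
  obtain ⟨G, hG, hG'⟩ := h P (isProperForcing_of_proper hP) (Set.range D) hcard (by
    rintro _ ⟨α, rfl⟩
    exact hD α)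
  refine ⟨G, hG.nonempty, hG.upward, hG.directed, fun α => ?_⟩
  obtain ⟨p, hp, hp'⟩ := hG' (D α) ⟨α, rfl⟩
  exact ⟨p, hp, hp'⟩

/-- Under the Proper Forcing Axiom the class `C` has a six-element basis under LOTS
embeddability, and every basis for `C` has at least six elements. -/
theorem result : ProperForcingAxiom →
    (∃ (K : Fin 6 → Type) (_ : ∀ i, LinearOrder (K i)), IsBasisForC K) ∧
      ∀ (ι : Type) (K : ι → Type) [∀ i, LinearOrder (K i)], IsBasisForC K →
        (6 : Cardinal) ≤ #ι :=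
  fun h => ⟨MOO.fin (pfa_of_properForcingAxiom h), fun _ _ _ hK => six_le_mk hK⟩

end Pool.Agent.Results.MP_6f3246_lc.PFASixElementBasis
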